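import Pool.Agent.W186.AI.Spec

/-!
Project AI, part TTH: the model solution is holomorphic in `w`, bounded and continuous.
-/

set_option autoImplicit false

namespace Pool.Agent.W661.AI.TTH

open Complex Filter Topology Metric Set
open Pool.Agent.W186.AI

theorem good_add (y : ℝ) (hy : 0 ≤ y) (h : ℂ → ℂ) (hh : Good 1 h) :
    Good (y + 1) (fun t => (y : ℂ) + h t) := by
  constructor
  · intro t ht
    calc ‖(y : ℂ) + h t‖ ≤ ‖(y : ℂ)‖ + ‖h t‖ := norm_add_le _ _
      _ ≤ y + 1 := by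
        rw [Complex.norm_real, Real.norm_eq_abs, abs_of_nonneg hy]
        linarith [hh.1 t ht]
  · intro t ht u hu
    have h1 := hh.2 t ht u hu
    have h2 : (y : ℂ) + h t - ((y : ℂ) + h u) = h t - h u := by ring
    simp only
    rw [h2]
    refine h1.trans ?_
    exact mul_le_mul_of_nonneg_right (by linarith) (norm_nonneg _)

theorem main (hf : S_FPL) (hh : S_FPH) (hc : S_FPC) (hS : S_SGD) (hU : S_SUP) : S_TTH := by
  intro σ y r hσ hy hr hry
  have hM : 1 ≤ y + 1 := by linarith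
  have hw : ∀ w ∈ ball (0 : ℂ) r, ‖w‖ * (2 * (y + 1)) ≤ 1 := by
    intro w hw
    rw [mem_ball_zero_iff] at hw
    refine le_trans ?_ hry
    exact mul_le_mul_of_nonneg_right hw.le (by linarith)
  have hgood : ∀ ω : Nat.Primes → ℂ, (∀ p, ‖ω p‖ ≤ 1) →
      Good (y + 1) (fun t => (y : ℂ) + S σ ω t) := by
    intro ω hω
    exact good_add y hy _ ((hS σ hσ).1 ω hω).1
  refine ⟨?_, ?_, ?_, ?_⟩
  · intro ω hω w hw'
    obtain ⟨h1, h2, h3, -, -⟩ := hf (y + 1) _ w hM (hgood ω hω) (hw w hw')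
    exact ⟨h1, h2, h3⟩
  · intro ω hω
    refine hh (y + 1) (ball (0 : ℂ) r) (fun w => w) (fun _ t => (y : ℂ) + S σ ω t) hM isOpen_ball
      differentiableOn_id ?_ (fun _ _ => hgood ω hω) hw
    have h1 := ((hS σ hσ).1 ω hω).2
    have h2 : DifferentiableOn ℂ (fun q : ℂ × ℂ => S σ ω q.2) (ball (0 : ℂ) r ×ˢ ball (0 : ℂ) 1) :=
      h1.comp differentiableOn_snd (fun q hq => hq.2)
    exact h2.const_add _
  · rw [continuousOn_iff_continuous_domRestrict]
    have h := hc (y + 1) (↥(ball (0 : ℂ) r ×ˢ {ω : Nat.Primes → ℂ | ∀ p, ‖ω p‖ ≤ 1}))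
      (fun a => a.1.1) (fun a t => (y : ℂ) + S σ a.1.2 t) hM
      (continuous_fst.comp continuous_subtype_val) ?_ (fun a => hgood _ a.2.2)
      (fun a => hw _ a.2.1)
    · exact h
    · have h1 := (hS σ hσ).2
      have h2 : ContinuousOn (fun q : ↥(ball (0 : ℂ) r ×ˢ {ω : Nat.Primes → ℂ | ∀ p, ‖ω p‖ ≤ 1}) × ℂ =>
          S σ q.1.1.2 q.2) (univ ×ˢ ball (0 : ℂ) 1) := by
        refine h1.comp (f := fun q : ↥(ball (0 : ℂ) r ×ˢ {ω : Nat.Primes → ℂ | ∀ p, ‖ω p‖ ≤ 1}) × ℂ =>
          ((q.1.1.2, q.2) : (Nat.Primes → ℂ) × ℂ)) ?_ ?_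
        · apply Continuous.continuousOn
          fun_prop
        · intro q hq
          exact ⟨q.1.2.2, hq.2⟩
      exact continuousOn_const.add h2
  · intro ω hω w hw' p
    refine hh (y + 1) (ball (0 : ℂ) 1) (fun _ => w)
      (fun u t => (y : ℂ) + S σ (Function.update ω p u) t) hM isOpen_ball
      (differentiableOn_const _) ?_ ?_ (fun _ _ => hw w hw')
    · exact (hU σ hσ ω hω p).const_add _
    · intro u hu
      apply hgood
      intro q
      by_cases hq : q = p
      · subst hq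
        rw [Function.update_self]
        rw [mem_ball_zero_iff] at hu
        exact hu.le
      · rw [Function.update_of_ne hq]
        exact hω q

end Pool.Agent.W661.AI.TTH
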